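import Mathlib
import Pool.Agent.TH623.SA.Iso
import Pool.Agent.TH623.SA.Nil

/-!
# The trace form on the algebra spanned by a semisimple representation
-/

set_option linter.unusedSectionVars false
set_option linter.style.haveILetI false

namespace Pool.Agent.TH119.OP

open Matrix

variable {G : Type*} [Group G] {n : ℕ} {k : Type*} [Field k]

/-- Stable subspaces have stable complements. -/
def SS (ρ : G →* GL (Fin n) k) : Prop :=
  ∀ W : Submodule k (Fin n → k),
    (∀ g, ∀ x ∈ W, (ρ g : Matrix (Fin n) (Fin n) k).mulVec x ∈ W) →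
    ∃ W' : Submodule k (Fin n → k),
      (∀ g, ∀ x ∈ W', (ρ g : Matrix (Fin n) (Fin n) k).mulVec x ∈ W') ∧ IsCompl W W'

/-- The linear span of the image of a representation. -/
def sp (ρ : G →* GL (Fin n) k) : Submodule k (Matrix (Fin n) (Fin n) k) :=
  Submodule.span k (Set.range fun g => (ρ g : Matrix (Fin n) (Fin n) k))

theorem mem_sp (ρ : G →* GL (Fin n) k) (g : G) : (ρ g : Matrix (Fin n) (Fin n) k) ∈ sp ρ :=
  Submodule.subset_span ⟨g, rfl⟩

theorem mul_mem_sp (ρ : G →* GL (Fin n) k) {x : Matrix (Fin n) (Fin n) k} (hx : x ∈ sp ρ)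
    (g : G) : x * ρ g ∈ sp ρ := by
  unfold sp at hx
  induction hx using Submodule.span_induction with
  | mem x hx =>
    obtain ⟨h, rfl⟩ := hx
    have : (ρ h : Matrix (Fin n) (Fin n) k) * ρ g = ρ (h * g) := by
      rw [map_mul, Units.val_mul]
    simp only [this]
    exact mem_sp ρ _
  | zero => rw [zero_mul]; exact Submodule.zero_mem _
  | add x y _ _ hx hy => rw [add_mul]; exact Submodule.add_mem _ hx hy
  | smul c x _ hx => rw [smul_mul_assoc]; exact Submodule.smul_mem _ _ hx

theorem mem_mul_sp (ρ : G →* GL (Fin n) k) {x : Matrix (Fin n) (Fin n) k} (hx : x ∈ sp ρ)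
    (g : G) : ρ g * x ∈ sp ρ := by
  unfold sp at hx
  induction hx using Submodule.span_induction with
  | mem x hx =>
    obtain ⟨h, rfl⟩ := hx
    have : (ρ g : Matrix (Fin n) (Fin n) k) * ρ h = ρ (g * h) := by
      rw [map_mul, Units.val_mul]
    simp only [this]
    exact mem_sp ρ _
  | zero => rw [mul_zero]; exact Submodule.zero_mem _
  | add x y _ _ hx hy => rw [mul_add]; exact Submodule.add_mem _ hx hy
  | smul c x _ hx => rw [mul_smul_comm]; exact Submodule.smul_mem _ _ hx

/-- **Nondegeneracy of the trace form.** -/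
theorem eq_zero_of_trace [CharZero k] (ρ : G →* GL (Fin n) k) (hss : SS ρ)
    {x : Matrix (Fin n) (Fin n) k} (hx : x ∈ sp ρ)
    (h : ∀ g, (x * ρ g).trace = 0) : x = 0 := by
  classical
  let I : Submodule k (Matrix (Fin n) (Fin n) k) :=
    { carrier := {y | y ∈ sp ρ ∧ ∀ g, (y * ρ g).trace = 0}
      add_mem' := by
        rintro a b ⟨h1, h2⟩ ⟨h3, h4⟩
        refine ⟨Submodule.add_mem _ h1 h3, fun g => ?_⟩
        rw [add_mul, trace_add, h2, h4, add_zero]
      zero_mem' := ⟨Submodule.zero_mem _, fun g => by rw [zero_mul, trace_zero]⟩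
      smul_mem' := by
        rintro c a ⟨h1, h2⟩
        refine ⟨Submodule.smul_mem _ _ h1, fun g => ?_⟩
        rw [smul_mul_assoc, trace_smul, h2, smul_zero] }
  have hI : ∀ y, y ∈ I ↔ y ∈ sp ρ ∧ ∀ g, (y * ρ g).trace = 0 := fun y => Iff.rfl
  have hIr : ∀ y ∈ I, ∀ g, y * ρ g ∈ I := by
    rintro y ⟨h1, h2⟩ g
    refine ⟨mul_mem_sp ρ h1 g, fun g' => ?_⟩
    rw [mul_assoc, ← Units.val_mul, ← map_mul]
    exact h2 _
  have hItr : ∀ y ∈ I, ∀ z ∈ sp ρ, (y * z).trace = 0 := by
    rintro y ⟨h1, h2⟩ z hz
    unfold sp at hz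
    induction hz using Submodule.span_induction with
    | mem z hz => obtain ⟨g, rfl⟩ := hz; exact h2 g
    | zero => rw [mul_zero, trace_zero]
    | add a b _ _ ha hb => rw [mul_add, trace_add, ha, hb, add_zero]
    | smul c a _ ha => rw [mul_smul_comm, trace_smul, ha, smul_zero]
  have hImul : ∀ y ∈ I, ∀ z ∈ sp ρ, y * z ∈ I := by
    rintro y hy z hz
    unfold sp at hz
    induction hz using Submodule.span_induction with
    | mem z hz => obtain ⟨g, rfl⟩ := hz; exact hIr y hy g
    | zero => rw [mul_zero]; exact I.zero_mem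
    | add a b _ _ ha hb => rw [mul_add]; exact I.add_mem ha hb
    | smul c a _ ha => rw [mul_smul_comm]; exact I.smul_mem c ha
  have h1sp : (1 : Matrix (Fin n) (Fin n) k) ∈ sp ρ := by
    have := mem_sp ρ 1
    rwa [map_one, Units.val_one] at this
  -- the common kernel
  let W : Submodule k (Fin n → k) :=
    { carrier := {v | ∀ y ∈ I, y.mulVec v = 0}
      add_mem' := by
        intro a b h1 h2 y hy
        rw [Matrix.mulVec_add, h1 y hy, h2 y hy, add_zero]
      zero_mem' := fun y _ => Matrix.mulVec_zero y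
      smul_mem' := by
        intro c a h1 y hy
        rw [Matrix.mulVec_smul, h1 y hy, smul_zero] }
  have hWst : ∀ g, ∀ v ∈ W, (ρ g : Matrix (Fin n) (Fin n) k).mulVec v ∈ W := by
    intro g v hv y hy
    rw [Matrix.mulVec_mulVec]
    exact hv _ (hIr y hy g)
  obtain ⟨W', hW', hc⟩ := hss W hWst
  have hspW' : ∀ y ∈ sp ρ, ∀ v ∈ W', y.mulVec v ∈ W' := by
    intro y hy v hv
    unfold sp at hy
    induction hy using Submodule.span_induction with
    | mem z hz => obtain ⟨g, rfl⟩ := hz; exact hW' g v hv
    | zero => rw [Matrix.zero_mulVec]; exact W'.zero_mem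
    | add a b _ _ ha hb => rw [Matrix.add_mulVec]; exact W'.add_mem ha hb
    | smul c a _ ha => rw [Matrix.smul_mulVec]; exact W'.smul_mem c ha
  have hWtop : W' = ⊥ := by
    by_contra hne
    obtain ⟨v, hv, hv0, hvk⟩ := Pool.Agent.TH623.SA.exists_common_kernel
      (ι := I) (fun y : I => Matrix.toLin' (y : Matrix (Fin n) (Fin n) k)) (by
      intro w hw
      have hprod : ∀ w : List I,
          (w.map fun y : I => Matrix.toLin' (y : Matrix (Fin n) (Fin n) k)).prod =
          Matrix.toLin' ((w.map fun y : I => (y : Matrix (Fin n) (Fin n) k)).prod) := by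
        intro w
        induction w with
        | nil =>
          rw [List.map_nil, List.prod_nil, List.map_nil, List.prod_nil, Matrix.toLin'_one]
          rfl
        | cons a w ih =>
          rw [List.map_cons, List.prod_cons, List.map_cons, List.prod_cons, ih,
            Matrix.toLin'_mul]
          rfl
      have hmem : ∀ w : List I,
          (w.map fun y : I => (y : Matrix (Fin n) (Fin n) k)).prod ∈ sp ρ := by
        intro w
        induction w with
        | nil => simpa using h1sp
        | cons a w ih =>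
          rw [List.map_cons, List.prod_cons]
          exact (hImul a.1 a.2 _ ih).1
      rw [hprod, Matrix.trace_toLin'_eq]
      cases w with
      | nil => exact absurd rfl hw
      | cons a w =>
        rw [List.map_cons, List.prod_cons]
        exact hItr a.1 a.2 _ (hmem w)) W' hne (by
      intro y v hv
      rw [Matrix.toLin'_apply]
      exact hspW' y.1 y.2.1 v hv)
    apply hv0
    have h2 : v ∈ W := by
      intro y hy
      have := hvk ⟨y, hy⟩
      rwa [Matrix.toLin'_apply] at this
    exact (Submodule.disjoint_def.1 hc.disjoint) v h2 hv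
  have hW : W = ⊤ := by
    have := hc.sup_eq_top
    rwa [hWtop, sup_bot_eq] at this
  have hall : ∀ v, x.mulVec v = 0 := by
    intro v
    have hv : v ∈ W := by rw [hW]; trivial
    exact hv x ⟨hx, h⟩
  ext i j
  have h2 := congrFun (hall (Pi.single j 1)) i
  rw [Matrix.mulVec_single_one] at h2
  simpa using h2

/-- A finite family of group elements whose images span. -/
theorem exists_family (ρ : G →* GL (Fin n) k) : ∃ (d : ℕ) (g : Fin d → G), d ≤ n ^ 2 ∧
    Submodule.span k (Set.range fun i => (ρ (g i) : Matrix (Fin n) (Fin n) k)) = sp ρ ∧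
    LinearIndependent k fun i => (ρ (g i) : Matrix (Fin n) (Fin n) k) := by
  classical
  obtain ⟨f, hf1, hf2, hf3⟩ := Submodule.exists_fun_fin_finrank_span_eq k
    (Set.range fun g => (ρ g : Matrix (Fin n) (Fin n) k))
  choose g hg using hf1
  have hg' : (fun i => (ρ (g i) : Matrix (Fin n) (Fin n) k)) = f := funext hg
  refine ⟨_, g, ?_, ?_, ?_⟩
  · refine (Submodule.finrank_le _).trans ?_
    rw [Module.finrank_matrix]
    simp [sq]
  · rw [hg']
    exact hf2
  · rw [hg']
    exact hf3

end Pool.Agent.TH119.OP
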