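import Mathlib
import Pool.Agent.TH119.OP.Trace

/-!
# Representations of compact groups whose traces take few values
-/

set_option linter.unusedSectionVars false
set_option linter.style.haveILetI false

namespace Pool.Agent.TH119.OP

open MeasureTheory Matrix

section index

variable {G : Type*} [Group G] [MeasurableSpace G] [MeasurableMul G]

/-- The cosets have the same measure. -/
theorem measure_coset (μ : Measure G) [μ.IsMulLeftInvariant] (N : Subgroup G)
    (hN : MeasurableSet (N : Set G)) (q : G ⧸ N) :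
    MeasurableSet ((QuotientGroup.mk : G → G ⧸ N) ⁻¹' {q}) ∧
      μ ((QuotientGroup.mk : G → G ⧸ N) ⁻¹' {q}) = μ N := by
  obtain ⟨g, rfl⟩ := QuotientGroup.mk_surjective q
  have h1 : (QuotientGroup.mk : G → G ⧸ N) ⁻¹' {QuotientGroup.mk g} =
      (fun x => g⁻¹ * x) ⁻¹' (N : Set G) := by
    ext x
    rw [Set.mem_preimage, Set.mem_singleton_iff, Set.mem_preimage, SetLike.mem_coe, eq_comm,
      QuotientGroup.eq]
  rw [h1]
  exact ⟨measurable_const_mul _ hN, measure_preimage_mul μ _ _⟩

theorem measure_cosets (μ : Measure G) [μ.IsMulLeftInvariant] (N : Subgroup G)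
    (hN : MeasurableSet (N : Set G)) (t : Finset (G ⧸ N)) :
    μ ((QuotientGroup.mk : G → G ⧸ N) ⁻¹' (t : Set (G ⧸ N))) = t.card * μ N := by
  have h1 : (QuotientGroup.mk : G → G ⧸ N) ⁻¹' (t : Set (G ⧸ N)) =
      ⋃ q ∈ t, (QuotientGroup.mk : G → G ⧸ N) ⁻¹' {q} := by
    ext x
    simp
  rw [h1, measure_biUnion_finset]
  · rw [Finset.sum_congr rfl fun q _ => (measure_coset μ N hN q).2, Finset.sum_const,
      nsmul_eq_mul]
  · intro a _ b _ hab
    refine Set.disjoint_left.2 fun x hx hx' => hab ?_
    rw [Set.mem_preimage, Set.mem_singleton_iff] at hx hx'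
    rw [← hx, ← hx']
  · exact fun q _ => (measure_coset μ N hN q).1

/-- A measurable subgroup of positive measure has finite index. -/
theorem finiteIndex_of_measure (μ : Measure G) [IsFiniteMeasure μ] [μ.IsMulLeftInvariant]
    (N : Subgroup G) (hN : MeasurableSet (N : Set G)) (hpos : μ N ≠ 0) : N.FiniteIndex := by
  by_contra hinf
  haveI hq : Infinite (G ⧸ N) := by
    by_contra h
    rw [not_infinite_iff_finite] at h
    exact hinf Subgroup.finiteIndex_of_finite_quotient
  have h : ∀ m : ℕ, (m : ENNReal) * μ N ≤ μ Set.univ := by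
    intro m
    obtain ⟨t, ht⟩ := Infinite.exists_subset_card_eq (G ⧸ N) m
    rw [← ht, ← measure_cosets μ N hN t]
    exact measure_mono (Set.subset_univ _)
  have hfin : μ N ≠ ⊤ := measure_ne_top μ _
  obtain ⟨m, hm⟩ := ENNReal.exists_nat_mul_gt hpos (measure_ne_top μ Set.univ)
  exact absurd (h m) (not_le.2 hm)

end index

section rep

variable {G : Type*} [Group G] [MeasurableSpace G] [MeasurableMul G] {n : ℕ} {k : Type*} [Field k]

/-- **Few traces.** If the traces of a semisimple representation of dimension `n` take finitely many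
values on a set of measure greater than `1 - 1 / n ^ 2`, then the kernel has finite index. -/
theorem finiteIndex_ker [CharZero k] (μ : Measure G) [IsProbabilityMeasure μ]
    [μ.IsMulLeftInvariant] (ρ : G →* GL (Fin n) k) (hss : SS ρ)
    (hker : MeasurableSet (ρ.ker : Set G)) (X : Finset k)
    (hmeas : MeasurableSet {g : G | (ρ g : Matrix (Fin n) (Fin n) k).trace ∈ X})
    (hX : 1 - 1 / (n : ℝ) ^ 2 < μ.real {g : G | (ρ g : Matrix (Fin n) (Fin n) k).trace ∈ X}) :
    ρ.ker.FiniteIndex := by
  classical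
  set D : Set G := {g : G | (ρ g : Matrix (Fin n) (Fin n) k).trace ∈ X} with hD
  obtain ⟨d, g, hdn, hspan, -⟩ := exists_family ρ
  -- the good set
  let Pf : (Fin d → X) → Set G := fun f =>
    {h | ∀ i, (ρ (g i * h) : Matrix (Fin n) (Fin n) k).trace = f i}
  have hcover : (⋂ i, (fun h => g i * h) ⁻¹' D) ⊆ ⋃ f, Pf f := by
    intro h hh
    rw [Set.mem_iInter] at hh
    rw [Set.mem_iUnion]
    exact ⟨fun i => ⟨_, hh i⟩, fun i => rfl⟩
  have hn0 : (0 : ℝ) ≤ 1 / (n : ℝ) ^ 2 := by positivity
  have hDc : μ.real Dᶜ < 1 / (n : ℝ) ^ 2 := by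
    rw [probReal_compl_eq_one_sub hmeas]
    linarith
  have hpos : μ (⋂ i, (fun h => g i * h) ⁻¹' D) ≠ 0 := by
    intro h0
    have h1 : μ.real (⋂ i, (fun h => g i * h) ⁻¹' D)ᶜ = 1 := by
      rw [probReal_compl_eq_one_sub (MeasurableSet.iInter fun i =>
        measurable_const_mul _ hmeas)]
      rw [measureReal_def, h0]
      simp
    have h2 : μ.real (⋂ i, (fun h => g i * h) ⁻¹' D)ᶜ ≤ d * μ.real Dᶜ := by
      have h3 : (⋂ i, (fun h => g i * h) ⁻¹' D)ᶜ = ⋃ i, (fun h => g i * h) ⁻¹' Dᶜ := by
        rw [Set.compl_iInter]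
        rfl
      rw [h3]
      refine (measureReal_iUnion_fintype_le _).trans ?_
      have h4 : ∀ i, μ.real ((fun h => g i * h) ⁻¹' Dᶜ) = μ.real Dᶜ := by
        intro i
        rw [measureReal_def, measureReal_def, measure_preimage_mul]
      rw [Finset.sum_congr rfl fun i _ => h4 i, Finset.sum_const, Finset.card_univ,
        Fintype.card_fin, nsmul_eq_mul]
    rw [h1] at h2
    have h5 : (d : ℝ) ≤ (n : ℝ) ^ 2 := by exact_mod_cast hdn
    have h6 : 0 ≤ μ.real Dᶜ := measureReal_nonneg
    rcases Nat.eq_zero_or_pos n with hn | hn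
    · subst hn
      have h7 : d = 0 := by simpa using hdn
      subst h7
      norm_num at h2
    · have h7 : (0 : ℝ) < (n : ℝ) ^ 2 := by positivity
      have h8 : (n : ℝ) ^ 2 * μ.real Dᶜ < 1 := by
        rw [lt_div_iff₀ h7] at hDc
        linarith
      nlinarith
  obtain ⟨f, hf⟩ : ∃ f, μ (Pf f) ≠ 0 := by
    by_contra hcon
    push Not at hcon
    apply hpos
    refine measure_mono_null hcover ?_
    exact measure_iUnion_null hcon
  obtain ⟨h0, hh0⟩ : (Pf f).Nonempty := by
    rw [Set.nonempty_iff_ne_empty]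
    rintro h
    rw [h] at hf
    exact hf measure_empty
  have hsub : Pf f ⊆ (fun x => h0⁻¹ * x) ⁻¹' (ρ.ker : Set G) := by
    intro h hh
    rw [Set.mem_preimage, SetLike.mem_coe, MonoidHom.mem_ker, map_mul, map_inv, inv_mul_eq_one]
    have h1 : (ρ h0 : Matrix (Fin n) (Fin n) k) - ρ h = 0 := by
      refine eq_zero_of_trace ρ hss (Submodule.sub_mem _ (mem_sp ρ _) (mem_sp ρ _)) fun x => ?_
      have h2 : ∀ y ∈ sp ρ, (y * ((ρ h0 : Matrix (Fin n) (Fin n) k) - ρ h)).trace = 0 := by
        intro y hy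
        rw [← hspan] at hy
        induction hy using Submodule.span_induction with
        | mem z hz =>
          obtain ⟨i, rfl⟩ := hz
          have h3 := hh0 i
          have h4 := hh i
          rw [map_mul, Units.val_mul] at h3 h4
          dsimp only
          rw [mul_sub, trace_sub, h3, h4, sub_self]
        | zero => rw [zero_mul, trace_zero]
        | add a b _ _ ha hb => rw [add_mul, trace_add, ha, hb, add_zero]
        | smul c a _ ha => rw [smul_mul_assoc, trace_smul, ha, smul_zero]
      rw [Matrix.trace_mul_comm]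
      exact h2 _ (mem_sp ρ x)
    exact Units.ext (sub_eq_zero.1 h1)
  have hposk : μ (ρ.ker : Set G) ≠ 0 := by
    intro h
    apply hf
    refine measure_mono_null hsub ?_
    rw [measure_preimage_mul]
    exact h
  exact finiteIndex_of_measure μ ρ.ker hker hposk

end rep

section compact

variable {G : Type*} [Group G] [TopologicalSpace G] [IsTopologicalGroup G] [CompactSpace G]
  [TotallyDisconnectedSpace G] [MeasurableSpace G] [BorelSpace G]

/-- The measure of a closed set is determined by its images in the finite quotients. -/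
theorem le_measure (μ : Measure G) [IsProbabilityMeasure μ] [μ.IsMulLeftInvariant]
    [μ.OuterRegular] (D : Set G) (hD : IsClosed D) (δ : ℝ)
    (h : ∀ U : Subgroup G, U.Normal → IsOpen (U : Set G) →
      δ * Nat.card (G ⧸ U) ≤ ((QuotientGroup.mk : G → G ⧸ U) '' D).ncard) :
    δ ≤ μ.real D := by
  classical
  refine le_of_forall_pos_le_add fun η hη => ?_
  obtain ⟨O, hDO, hO, hμO⟩ := D.exists_isOpen_lt_add (μ := μ) (measure_ne_top μ D)
    (ENNReal.ofReal_pos.2 hη).ne'
  obtain ⟨V, hV, hDV⟩ := compact_open_separated_mul_right hD.isCompact hO hDO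
  obtain ⟨V', hV'V, hV'o, hV'1⟩ := mem_nhds_iff.1 hV
  obtain ⟨U, hU⟩ := ProfiniteGrp.exist_openNormalSubgroup_sub_open_nhds_of_one hV'o hV'1
  have hUo : IsOpen ((U : Subgroup G) : Set G) := U.isOpen'
  haveI : Finite (G ⧸ (U : Subgroup G)) := Subgroup.quotient_finite_of_isOpen _ hUo
  have h1 := h (U : Subgroup G) inferInstance hUo
  set t : Finset (G ⧸ (U : Subgroup G)) :=
    (Set.toFinite ((QuotientGroup.mk : G → G ⧸ (U : Subgroup G)) '' D)).toFinset with ht
  have h2 := measure_cosets μ (U : Subgroup G) hUo.measurableSet t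
  have h3 : (QuotientGroup.mk : G → G ⧸ (U : Subgroup G)) ⁻¹' (t : Set (G ⧸ (U : Subgroup G))) ⊆
      O := by
    intro x hx
    rw [Set.mem_preimage, ht, Set.Finite.coe_toFinset] at hx
    obtain ⟨y, hy, hyx⟩ := hx
    apply hDV
    rw [Set.mem_mul]
    refine ⟨y, hy, y⁻¹ * x, ?_, by group⟩
    exact hV'V (hU (QuotientGroup.eq.1 hyx))
  have h4 : ((U : Subgroup G).index : ENNReal) * μ (U : Subgroup G) = 1 := by
    haveI : (U : Subgroup G).FiniteIndex := Subgroup.finiteIndex_of_finite_quotient
    have := Subgroup.index_mul_measure (U : Subgroup G) hUo.measurableSet μ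
    rw [this, measure_univ]
  have h5 : (Nat.card (G ⧸ (U : Subgroup G)) : ℝ) * μ.real (U : Subgroup G) = 1 := by
    have := congrArg ENNReal.toReal h4
    rw [ENNReal.toReal_mul, ENNReal.toReal_natCast, ENNReal.toReal_one] at this
    exact this
  have h6 : (t.card : ℝ) * μ.real (U : Subgroup G) ≤ μ.real D + η := by
    have h7 : μ O ≤ μ D + ENNReal.ofReal η := hμO.le
    have h8 : (t.card : ENNReal) * μ (U : Subgroup G) ≤ μ D + ENNReal.ofReal η := by
      rw [← h2]
      exact (measure_mono h3).trans h7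
    have h9 := ENNReal.toReal_mono (by finiteness) h8
    rw [ENNReal.toReal_mul, ENNReal.toReal_natCast, ENNReal.toReal_add (by finiteness)
      (by finiteness), ENNReal.toReal_ofReal hη.le] at h9
    exact h9
  have h7 : ((QuotientGroup.mk : G → G ⧸ (U : Subgroup G)) '' D).ncard = t.card := by
    rw [ht, ← Set.ncard_coe_finset, Set.Finite.coe_toFinset]
  rw [h7] at h1
  have h8 : 0 ≤ μ.real (U : Subgroup G) := measureReal_nonneg
  have h9 := mul_le_mul_of_nonneg_right h1 h8
  rw [mul_assoc, h5, mul_one] at h9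
  linarith

end compact

end Pool.Agent.TH119.OP
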