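import Mathlib
import Pool.Agent.TH119.OP.Haar
import Pool.Agent.TH119.DS.Main

/-!
# One prime suffices
-/

set_option linter.unusedSectionVars false
set_option linter.style.haveILetI false

namespace Pool.Agent.TH119.OP

open NumberField IsDedekindDomain Polynomial Filter Topology MeasureTheory
open Pool.Agent.W401.Cheb (GK IsFrob IsInert)
open Pool.Agent.W540.BE (upto nm cheb_mean mem_upto)
open Pool.Agent.TH119.DS

variable {K E : Type} [Field K] [NumberField K] [Field E] [NumberField E] {n : ℕ}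

/-- Conjugation-invariant subsets of finite quotients: lower bound from the density. -/
theorem freq_lower (U : Subgroup (GK K)) [U.Normal] (hU : IsOpen (U : Set (GK K)))
    (s : HeightOneSpectrum (𝓞 K) → GK K) (hs : ∀ v, IsFrob v (s v)) (D : Set (GK K ⧸ U))
    (hD : ∀ a ∈ D, ∀ g, g * a * g⁻¹ ∈ D) (δ b : ℝ)
    (h : ∃ᶠ N : ℕ in atTop, ∃ T : Finset (HeightOneSpectrum (𝓞 K)),
      (∀ v ∈ T, Ideal.absNorm v.asIdeal ≤ N ∧ (QuotientGroup.mk (s v) : GK K ⧸ U) ∈ D) ∧
      δ * (upto K N).card ≤ T.card + b) :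
    δ * Nat.card (GK K ⧸ U) ≤ D.ncard := by
  classical
  haveI hfin : Finite (GK K ⧸ U) := Subgroup.quotient_finite_of_isOpen U hU
  haveI : Fintype (GK K ⧸ U) := Fintype.ofFinite _
  have hcard : (0 : ℝ) < Nat.card (GK K ⧸ U) := by exact_mod_cast Nat.card_pos
  have key : ∀ D : Set (GK K ⧸ U), (∀ a ∈ D, ∀ g, g * a * g⁻¹ ∈ D) →
      Tendsto (fun N : ℕ =>
      ((((upto K N).filter fun v => (QuotientGroup.mk (s v) : GK K ⧸ U) ∈ D).card : ℝ) /
        (Nat.primeCounting N : ℝ))) atTop (𝓝 ((Nat.card (GK K ⧸ U) : ℝ)⁻¹ * D.ncard)) := by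
    intro D hD
    have h1 := cheb_mean U hU (fun q => if q ∈ D then (1 : ℂ) else 0) (by
      intro a g
      by_cases ha : a ∈ D
      · rw [if_pos ha, if_pos (hD a ha g)]
      · rw [if_neg ha, if_neg]
        intro h2
        apply ha
        have h3 := hD _ h2 g⁻¹
        have h4 : g⁻¹ * (g * a * g⁻¹) * g⁻¹⁻¹ = a := by group
        rwa [h4] at h3) s hs
    have h2 : (∑ᶠ q : GK K ⧸ U, if q ∈ D then (1 : ℂ) else 0) = (D.ncard : ℂ) := by
      rw [finsum_eq_sum_of_fintype, Finset.sum_ite, Finset.sum_const_zero, add_zero,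
        Finset.sum_const, nsmul_eq_mul, mul_one]
      congr 1
      rw [← Set.ncard_coe_finset]
      congr 1
      ext q
      simp
    rw [h2] at h1
    have h4 := (Complex.continuous_re.tendsto _).comp h1
    have h5 : ((Nat.card (GK K ⧸ U) : ℂ)⁻¹ * (D.ncard : ℂ)).re =
        (Nat.card (GK K ⧸ U) : ℝ)⁻¹ * D.ncard := by
      have : ((Nat.card (GK K ⧸ U) : ℂ)⁻¹ * (D.ncard : ℂ)) =
          (((Nat.card (GK K ⧸ U) : ℝ)⁻¹ * (D.ncard : ℝ) : ℝ) : ℂ) := by push_cast; rfl
      rw [this, Complex.ofReal_re]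
    rw [h5] at h4
    refine h4.congr fun N => ?_
    have h6 : (∑ v ∈ upto K N, if (QuotientGroup.mk (s v) : GK K ⧸ U) ∈ D then (1 : ℂ) else 0) /
        (Nat.primeCounting N : ℂ) =
        ((((((upto K N).filter fun v => (QuotientGroup.mk (s v) : GK K ⧸ U) ∈ D).card : ℝ) /
        (Nat.primeCounting N : ℝ) : ℝ)) : ℂ) := by
      rw [Finset.sum_ite, Finset.sum_const_zero, add_zero, Finset.sum_const, nsmul_eq_mul,
        mul_one]
      push_cast
      rfl
    rw [Function.comp_apply, h6, Complex.ofReal_re]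
  have h1 := key D hD
  have h2 := key Set.univ fun a _ g => Set.mem_univ _
  rw [Set.ncard_univ, inv_mul_cancel₀ hcard.ne'] at h2
  replace h2 : Tendsto (fun N : ℕ => ((upto K N).card : ℝ) / (Nat.primeCounting N : ℝ)) atTop
      (𝓝 1) := by
    refine h2.congr fun N => ?_
    have h3 : ((upto K N).filter fun v =>
        (QuotientGroup.mk (s v) : GK K ⧸ U) ∈ (Set.univ : Set (GK K ⧸ U))) = upto K N := by
      ext v
      simp
    convert rfl using 3
    convert (congrArg Finset.card h3).symm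
  have hpi : Tendsto (fun N : ℕ => (Nat.primeCounting N : ℝ)) atTop atTop :=
    tendsto_natCast_atTop_atTop.comp Nat.tendsto_primeCounting
  have h4 : Tendsto (fun N : ℕ => b / (Nat.primeCounting N : ℝ)) atTop (𝓝 0) :=
    tendsto_const_nhds.div_atTop hpi
  have h5 : Tendsto (fun N : ℕ =>
      δ * (((upto K N).card : ℝ) / (Nat.primeCounting N : ℝ))) atTop (𝓝 δ) := by
    have := h2.const_mul δ
    rwa [mul_one] at this
  have h6 := h1.add h4
  rw [add_zero] at h6
  have h7 : δ ≤ (Nat.card (GK K ⧸ U) : ℝ)⁻¹ * D.ncard := by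
    by_contra hcon
    push Not at hcon
    have h8 := (h6.eventually_lt h5 hcon).and (hpi.eventually_gt_atTop 0)
    obtain ⟨N, ⟨T, hT, hTc⟩, h9, hN⟩ := (h.and_eventually h8).exists
    have h10 : T ⊆ (upto K N).filter fun v => (QuotientGroup.mk (s v) : GK K ⧸ U) ∈ D := by
      intro v hv
      rw [Finset.mem_filter]
      exact ⟨mem_upto.2 (hT v hv).1, (hT v hv).2⟩
    have h11 : (T.card : ℝ) ≤
        ((upto K N).filter fun v => (QuotientGroup.mk (s v) : GK K ⧸ U) ∈ D).card := by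
      exact_mod_cast Finset.card_le_card h10
    rw [← add_div, ← mul_div_assoc, div_lt_div_iff_of_pos_right hN] at h9
    linarith
  rw [inv_mul_eq_div, le_div_iff₀ hcard] at h7
  exact h7

/-- **Finite image.** -/
theorem finite_image {k : Type} [Field k] [CharZero k] [TopologicalSpace k] [IsTopologicalRing k]
    [T2Space k] (ρ : GK K →* Matrix.GeneralLinearGroup (Fin n) k)
    (hρ : Continuous fun g => (ρ g : Matrix (Fin n) (Fin n) k)) (hss : SS ρ) (X : Finset k)
    (S : Set (HeightOneSpectrum (𝓞 K))) (hS : S.Finite) (V : Set (HeightOneSpectrum (𝓞 K)))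
    (hV : ∀ v ∈ V, v ∉ S → ∀ σ, IsFrob v σ → (ρ σ : Matrix (Fin n) (Fin n) k).trace ∈ X)
    (δ : ℝ) (hδ : 1 - 1 / (n : ℝ) ^ 2 < δ)
    (h : ∃ᶠ N : ℕ in atTop, ∃ T : Finset (HeightOneSpectrum (𝓞 K)),
      (∀ v ∈ T, Ideal.absNorm v.asIdeal ≤ N ∧ v ∈ V) ∧ δ * (upto K N).card ≤ T.card) :
    IsOpen (ρ.ker : Set (GK K)) := by
  classical
  letI : MeasurableSpace (GK K) := borel (GK K)
  haveI : BorelSpace (GK K) := ⟨rfl⟩
  have hfrob := (Pool.Agent.W401.Frob.main K).1
  choose s hs using hfrob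
  set μ : Measure (GK K) := Measure.haarMeasure ⊤ with hμ
  haveI : IsProbabilityMeasure μ := ⟨by
    have := Measure.haarMeasure_self (K₀ := (⊤ : TopologicalSpace.PositiveCompacts (GK K)))
    rwa [TopologicalSpace.PositiveCompacts.coe_top] at this⟩
  set D : Set (GK K) := {g | (ρ g : Matrix (Fin n) (Fin n) k).trace ∈ X} with hDd
  have htr : Continuous fun g => (ρ g : Matrix (Fin n) (Fin n) k).trace := hρ.matrix_trace
  have hDc : IsClosed D := X.finite_toSet.isClosed.preimage htr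
  have hkc : IsClosed (ρ.ker : Set (GK K)) := by
    have h1 : (ρ.ker : Set (GK K)) =
        (fun g => (ρ g : Matrix (Fin n) (Fin n) k)) ⁻¹' {1} := by
      ext g
      rw [SetLike.mem_coe, MonoidHom.mem_ker, Set.mem_preimage, Set.mem_singleton_iff,
        Units.val_eq_one]
    rw [h1]
    exact isClosed_singleton.preimage hρ
  have h1 : δ ≤ μ.real D := by
    refine le_measure μ D hDc δ fun U hUn hU => ?_
    haveI := hUn
    refine freq_lower U hU s hs _ ?_ δ hS.toFinset.card ?_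
    · rintro _ ⟨a, ha, rfl⟩ g
      obtain ⟨γ, rfl⟩ := QuotientGroup.mk_surjective g
      refine ⟨γ * a * γ⁻¹, ?_, rfl⟩
      change (ρ (γ * a * γ⁻¹) : Matrix (Fin n) (Fin n) k).trace ∈ X
      rw [map_mul, map_mul, map_inv, Units.val_mul, Units.val_mul, Matrix.trace_mul_comm,
        ← mul_assoc, ← Units.val_mul, inv_mul_cancel, Units.val_one, one_mul]
      exact ha
    · refine h.mono ?_
      rintro N ⟨T, hT, hTc⟩
      refine ⟨T.filter fun v => v ∉ S, ?_, ?_⟩
      · intro v hv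
        rw [Finset.mem_filter] at hv
        exact ⟨(hT v hv.1).1, _, hV v (hT v hv.1).2 hv.2 _ (hs v), rfl⟩
      · have h2 : T.card = (T.filter fun v => v ∈ S).card + (T.filter fun v => ¬ v ∈ S).card :=
          (Finset.card_filter_add_card_filter_not _).symm
        have h3 : (T.filter fun v => v ∈ S).card ≤ hS.toFinset.card := by
          refine Finset.card_le_card fun v hv => ?_
          rw [Set.Finite.mem_toFinset]
          exact (Finset.mem_filter.1 hv).2
        have h4 : ((T.filter fun v => v ∈ S).card : ℝ) ≤ hS.toFinset.card := by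
          exact_mod_cast h3
        rw [h2] at hTc
        push_cast at hTc
        linarith
  have h2 : ρ.ker.FiniteIndex := finiteIndex_ker μ ρ hss hkc.measurableSet X hDc.measurableSet
    (lt_of_lt_of_le hδ h1)
  exact Subgroup.isOpen_of_isClosed_of_finiteIndex _ hkc

/-- Elements with trivial characteristic polynomial. -/
theorem eq_one {k : Type} [Field k] [CharZero k] (ρ : GK K →* Matrix.GeneralLinearGroup (Fin n) k)
    (hρ : IsOpen (ρ.ker : Set (GK K))) (σ : GK K)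
    (hσ : (ρ σ : Matrix (Fin n) (Fin n) k).charpoly = (Polynomial.X - 1) ^ n) : ρ σ = 1 := by
  haveI : Finite (GK K ⧸ ρ.ker) := Subgroup.quotient_finite_of_isOpen _ hρ
  apply Units.ext
  rw [Units.val_one]
  refine eq_one_of_charpoly _ (m := Nat.card (GK K ⧸ ρ.ker))
    (Nat.cast_ne_zero.2 Nat.card_pos.ne') ?_ hσ
  have h1 : (QuotientGroup.mk σ : GK K ⧸ ρ.ker) ^ Nat.card (GK K ⧸ ρ.ker) = 1 :=
    pow_card_eq_one'
  rw [← Units.val_pow_eq_pow_val, ← map_pow]
  have h2 : σ ^ Nat.card (GK K ⧸ ρ.ker) ∈ ρ.ker := by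
    rw [← QuotientGroup.eq_one_iff]
    exact h1
  rw [MonoidHom.mem_ker] at h2
  rw [h2, Units.val_one]

theorem eq_of_mk {k : Type} [Field k] (ρ : GK K →* Matrix.GeneralLinearGroup (Fin n) k)
    (U : Subgroup (GK K)) (hU : U ≤ ρ.ker) {a b : GK K}
    (h : (QuotientGroup.mk a : GK K ⧸ U) = QuotientGroup.mk b) : ρ a = ρ b := by
  have h1 := hU (QuotientGroup.eq.1 h)
  rwa [MonoidHom.mem_ker, map_mul, map_inv, inv_mul_eq_one] at h1

/-- **One prime suffices.** -/
theorem main (hn : 0 < n) (P : HeightOneSpectrum (𝓞 K) → (𝓞 E)[X])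
    {J : Type} [Nonempty J] (S : J → Set (HeightOneSpectrum (𝓞 K))) (hS : ∀ j, (S j).Finite)
    (k : J → Type) [∀ j, Field (k j)] [∀ j, CharZero (k j)] [∀ j, TopologicalSpace (k j)]
    [∀ j, IsTopologicalRing (k j)] [∀ j, T2Space (k j)] (ι : ∀ j, E →+* k j)
    (ρ : ∀ j, GK K →* Matrix.GeneralLinearGroup (Fin n) (k j))
    (hcont : ∀ j, Continuous fun g => (ρ j g : Matrix (Fin n) (Fin n) (k j)))
    (hss : ∀ j, SS (ρ j))
    (hfrob : ∀ j, ∀ v ∉ S j, ∀ σ, IsFrob v σ → (ρ j σ : Matrix (Fin n) (Fin n) (k j)).charpoly =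
      (P v).map ((ι j).comp (algebraMap (𝓞 E) E)))
    (B δ : ℝ) (hδ : 1 - 1 / (n : ℝ) ^ 2 < δ)
    (h : ∃ᶠ N : ℕ in atTop, ∃ T : Finset (HeightOneSpectrum (𝓞 K)),
      (∀ v ∈ T, Ideal.absNorm v.asIdeal ≤ N ∧
        ∀ τ : E →+* ℂ, ‖τ ((P v).coeff (n - 1) : 𝓞 E)‖ ≤ B) ∧
      δ * (upto K N).card ≤ T.card) :
    (∀ j, IsOpen ((ρ j).ker : Set (GK K))) ∧
    ∀ (Ω : Type) [Field Ω] [IsAlgClosed Ω] (ι' : E →+* Ω),
      ∃ r : GK K →* Matrix.GeneralLinearGroup (Fin n) Ω, (∀ j, r.ker = (ρ j).ker) ∧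
        ∀ v, (∃ j, v ∉ S j) → ∀ σ, IsFrob v σ →
          (r σ : Matrix (Fin n) (Fin n) Ω).charpoly = (P v).map (ι'.comp (algebraMap (𝓞 E) E)) := by
  classical
  haveI : Nonempty (Fin n) := ⟨⟨0, hn⟩⟩
  have hopen : ∀ j, IsOpen ((ρ j).ker : Set (GK K)) := by
    intro j
    refine finite_image (ρ j) (hcont j) (hss j)
      ((finite_X (E := E) B).toFinset.image fun a => -((ι j).comp (algebraMap (𝓞 E) E)) a)
      (S j) (hS j) {v | ∀ τ : E →+* ℂ, ‖τ ((P v).coeff (n - 1) : 𝓞 E)‖ ≤ B} ?_ δ hδ h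
    intro v hv hvS σ hσ
    rw [Matrix.trace_eq_neg_charpoly_coeff, Fintype.card_fin, hfrob j v hvS σ hσ,
      Polynomial.coeff_map]
    exact Finset.mem_image_of_mem _ ((finite_X (E := E) B).mem_toFinset.2 hv)
  refine ⟨hopen, ?_⟩
  intro Ω _ _ ι'
  haveI : CharZero Ω := charZero_of_injective_ringHom ι'.injective
  have hinj : ∀ j, Function.Injective (Polynomial.map ((ι j).comp (algebraMap (𝓞 E) E))) :=
    fun j => Polynomial.map_injective _
      ((ι j).injective.comp (FaithfulSMul.algebraMap_injective (𝓞 E) E))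
  have hinj' : Function.Injective (Polynomial.map (ι'.comp (algebraMap (𝓞 E) E))) :=
    Polynomial.map_injective _
      (ι'.injective.comp (FaithfulSMul.algebraMap_injective (𝓞 E) E))
  have huni : ∀ (k : Type) [Field k] (f : 𝓞 E →+* k),
      ((Polynomial.X - 1 : (𝓞 E)[X]) ^ n).map f = (Polynomial.X - 1) ^ n := by
    intro k _ f
    rw [Polynomial.map_pow, Polynomial.map_sub, Polynomial.map_X, Polynomial.map_one]
  -- a common Frobenius element
  have hcom : ∀ i j, ∀ σ : GK K, ∃ v, v ∉ S i ∧ v ∉ S j ∧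
      (ρ i σ : Matrix (Fin n) (Fin n) (k i)).charpoly =
        (P v).map ((ι i).comp (algebraMap (𝓞 E) E)) ∧
      (ρ j σ : Matrix (Fin n) (Fin n) (k j)).charpoly =
        (P v).map ((ι j).comp (algebraMap (𝓞 E) E)) := by
    intro i j σ
    obtain ⟨v, hv, τ, hτ, hτσ⟩ := exists_frob_mem ((ρ i).ker ⊓ (ρ j).ker)
      ((hopen i).inter (hopen j)) _ ((hS i).union (hS j)) σ
    rw [Set.mem_union] at hv
    push Not at hv
    refine ⟨v, hv.1, hv.2, ?_, ?_⟩
    · rw [← hfrob i v hv.1 τ hτ, eq_of_mk (ρ i) _ inf_le_left hτσ]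
    · rw [← hfrob j v hv.2 τ hτ, eq_of_mk (ρ j) _ inf_le_right hτσ]
  have hker : ∀ i j, (ρ i).ker ≤ (ρ j).ker := by
    intro i j σ hσ
    obtain ⟨v, -, -, h1, h2⟩ := hcom i j σ
    rw [MonoidHom.mem_ker.1 hσ, Units.val_one, Matrix.charpoly_one, Fintype.card_fin,
      ← huni (k i) ((ι i).comp (algebraMap (𝓞 E) E))] at h1
    have h3 := hinj i h1
    refine eq_one (ρ j) (hopen j) σ ?_
    rw [h2, ← h3, huni]
  obtain ⟨j0⟩ := ‹Nonempty J›
  set U := (ρ j0).ker with hU
  haveI : Finite (GK K ⧸ U) := Subgroup.quotient_finite_of_isOpen _ (hopen j0)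
  have hex : ∀ q : GK K ⧸ U, ∃ v, (QuotientGroup.kerLift (ρ j0) q :
      Matrix (Fin n) (Fin n) (k j0)).charpoly =
        (P v).map ((ι j0).comp (algebraMap (𝓞 E) E)) := by
    intro q
    obtain ⟨σ, rfl⟩ := QuotientGroup.mk_surjective q
    obtain ⟨v, -, -, h1, -⟩ := hcom j0 j0 σ
    exact ⟨v, h1⟩
  choose w hw using hex
  obtain ⟨r, hr⟩ := exists_rep (Q := GK K ⧸ U) (n := n) ι' (fun q => P (w q)) (J := Unit)
    (fun _ => k j0) (fun _ => (ι j0).comp (algebraMap (𝓞 E) E)) (by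
      intro a ha
      refine ⟨(), fun h0 => ha ?_⟩
      exact ((ι j0).injective.comp (FaithfulSMul.algebraMap_injective (𝓞 E) E))
        (h0.trans (map_zero ((ι j0).comp (algebraMap (𝓞 E) E))).symm))
    (fun _ => QuotientGroup.kerLift (ρ j0)) (fun _ q => hw q)
  have hrσ : ∀ σ : GK K, (r (QuotientGroup.mk σ) : Matrix (Fin n) (Fin n) Ω).charpoly =
      (P (w (QuotientGroup.mk σ))).map (ι'.comp (algebraMap (𝓞 E) E)) := fun σ => hr _
  have hwσ : ∀ σ : GK K, (ρ j0 σ : Matrix (Fin n) (Fin n) (k j0)).charpoly =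
      (P (w (QuotientGroup.mk σ))).map ((ι j0).comp (algebraMap (𝓞 E) E)) := fun σ =>
    hw (QuotientGroup.mk σ)
  have hrk : IsOpen ((r.comp (QuotientGroup.mk' U)).ker : Set (GK K)) := by
    refine Subgroup.isOpen_mono (H₁ := U) ?_ (hopen j0)
    intro x hx
    rw [MonoidHom.mem_ker, MonoidHom.comp_apply]
    have h1 : QuotientGroup.mk' U x = 1 := (QuotientGroup.eq_one_iff x).2 hx
    rw [h1, map_one]
  refine ⟨r.comp (QuotientGroup.mk' U), ?_, ?_⟩
  · intro j
    refine le_antisymm ?_ ?_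
    · intro σ hσ
      refine hker j0 j ?_
      rw [MonoidHom.mem_ker, MonoidHom.comp_apply] at hσ
      have h1 := hrσ σ
      have h2 : r (QuotientGroup.mk σ) = 1 := hσ
      rw [h2, Units.val_one, Matrix.charpoly_one, Fintype.card_fin,
        ← huni Ω (ι'.comp (algebraMap (𝓞 E) E))] at h1
      have h3 := hinj' h1
      refine eq_one (ρ j0) (hopen j0) σ ?_
      rw [hwσ, ← h3, huni]
    · intro σ hσ
      have h0 : σ ∈ U := hker j j0 hσ
      rw [MonoidHom.mem_ker, MonoidHom.comp_apply]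
      have h1 : QuotientGroup.mk' U σ = 1 := (QuotientGroup.eq_one_iff σ).2 h0
      rw [h1, map_one]
  · rintro v ⟨j, hj⟩ σ hσ
    obtain ⟨v1, -, -, h1, h2⟩ := hcom j j0 σ
    have h3 : P v = P v1 := hinj j (by
      rw [← hfrob j v hj σ hσ, h1])
    have h4 : P (w (QuotientGroup.mk σ)) = P v1 := hinj j0 (by
      rw [← hwσ σ, h2])
    rw [MonoidHom.comp_apply]
    change (r (QuotientGroup.mk σ) : Matrix (Fin n) (Fin n) Ω).charpoly = _
    rw [hrσ, h4, h3]

end Pool.Agent.TH119.OP
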